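import Pool.Agent.Lib.MP_48b749_nt.Odd.Final

set_option autoImplicit false

open Polynomial Pool.Agent.BSDFF

namespace Pool.Agent.Results.MP_48b749_nt.FixedFieldRanks

/-- Let `k` be a finite field of characteristic `p ≥ 5`, `d` an odd divisor of `p ^ f + 1`, and
`u ∈ k[t]` with `u = c v ^ e`, `v` irreducible of odd degree, `e` odd, and `m (u)` irreducible for
all irreducible factors `m` of `X ^ d - 1`. Then `E : y ^ 2 = x (x + 1) (x + u ^ d)` over `k(t)` is
a non-isotrivial elliptic curve, its group of points is finitely generated of rank `n - 1`, where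
`n` is the number of irreducible factors of `X ^ d - 1` over `k`, and the `2`-torsion of its
Tate-Shafarevich group is trivial. Over every `k` there are such curves of arbitrarily large rank,
with `u = γ (t ^ p - t + c) ^ m`, and of every rank if `k` has `2` or `5` elements modulo `9`. -/
theorem result (p : ℕ) (hp : p.Prime) (hp5 : 5 ≤ p) (k : Type) [Field k] [Finite k] [CharP k p] :
    (∀ (f d : ℕ) (u : k[X]), Odd d → d ∣ p ^ f + 1 → OddNonsplit d u → RankAndSha k d u) ∧
    LargeRanks k p ∧
    (Nat.card k % 9 = 2 ∨ Nat.card k % 9 = 5 → AllRanks k p) := by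
  have hpF : Fact p.Prime := ⟨hp⟩
  exact ⟨fun f d u hd hdf hu => Odd.rankAndSha p f d hp5 hd hdf hu, Odd.largeRanks p hp5,
    fun hq => Odd.allRanks p hp5 hq⟩

end Pool.Agent.Results.MP_48b749_nt.FixedFieldRanks
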