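import Pool.Agent.Lib.GBC.H.Main

/-!
# Elliptic curves over every global function field: a positive proportion satisfies BSD

Let `k` be a finite field of characteristic at least `5` and `K` ANY function field in one variable over
`k` (a finitely generated extension of transcendence degree `1`: the function field of a smooth
projective curve over `k`). A positive proportion of all elliptic curves over `K`, ordered by height
(the degree `χ_E` of the minimal discriminant divided by `12`), has trivial `2`-Selmer group.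
-/

set_option autoImplicit false

open Polynomial

namespace Pool.Agent.Results.MP_48b749_nt.GlobalFunctionFields

open Pool.Agent.BSDP Pool.Agent.BSDFF

/-- `(A, B)` and `(A', B')` give isomorphic curves `y ^ 2 = x ^ 3 + A x + B` over `K`:
`A' = u ^ 4 A`, `B' = u ^ 6 B` for some `u ≠ 0` in `K`. -/
def isoCurves (K : Type) [Field K] : Setoid (K × K) where
  r p p' := ∃ u : K, u ≠ 0 ∧ p' = (u ^ 4 * p.1, u ^ 6 * p.2)
  iseqv := by
    refine ⟨fun p => ⟨1, one_ne_zero, by simp⟩, ?_, ?_⟩
    · rintro ⟨a, b⟩ _ ⟨u, hu, rfl⟩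
      refine ⟨u⁻¹, inv_ne_zero hu, ?_⟩
      ext
      · change a = u⁻¹ ^ 4 * (u ^ 4 * a)
        rw [← mul_assoc, ← mul_pow, inv_mul_cancel₀ hu, one_pow, one_mul]
      · change b = u⁻¹ ^ 6 * (u ^ 6 * b)
        rw [← mul_assoc, ← mul_pow, inv_mul_cancel₀ hu, one_pow, one_mul]
    · rintro ⟨a, b⟩ _ _ ⟨u, hu, rfl⟩ ⟨v, hv, rfl⟩
      refine ⟨v * u, mul_ne_zero hv hu, ?_⟩
      ext
      · change v ^ 4 * (u ^ 4 * a) = (v * u) ^ 4 * a
        ring
      · change v ^ 6 * (u ^ 6 * b) = (v * u) ^ 6 * b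
        ring

/-- `a` has at the place `v` a pole of order at most `n` (`ϖ` is a uniformizer at `v`). -/
def PoleAtMost {k K : Type} [Field k] [Field K] [Algebra k K] (v : Place k K) (n : ℤ) (a : K) :
    Prop :=
  ∀ ϖ : v.ring, Irreducible ϖ → a * (ϖ : K) ^ n ∈ v.ring

/-- The height of `y ^ 2 = x ^ 3 + A x + B` is at most `M`: there is a divisor `D = ∑ D_v v` of degree
`∑ D_v deg v ≤ M` such that at every place `v` the pole of `A` has order at most `4 D_v` and the pole
of `B` at most `6 D_v`. The least degree of such a `D` is `χ_E`, one twelfth of the degree of the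
minimal discriminant. -/
def HeightAtMost (k : Type) {K : Type} [Field k] [Field K] [Algebra k K] (M : ℕ) (A B : K) : Prop :=
  ∃ D : Place k K →₀ ℤ,
    (∀ v : Place k K, PoleAtMost v (4 * D v) A ∧ PoleAtMost v (6 * D v) B) ∧
      D.sum (fun v n => (v.degree : ℤ) * n) ≤ M

/-- The isomorphism classes of elliptic curves over `K` of height at most `M` which contain a curve
`y ^ 2 = x ^ 3 + A x + B` of height at most `M` with the property `P A B`. -/
def Curves (k : Type) {K : Type} [Field k] [Field K] [Algebra k K] (M : ℕ) (P : K → K → Prop) :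
    Set (Quotient (isoCurves K)) :=
  {C | ∃ A B : K, Quotient.mk (isoCurves K) (A, B) = C ∧ (curve A B).Δ ≠ 0 ∧
    HeightAtMost k M A B ∧ P A B}

/-- The `j`-invariant of `y ^ 2 = x ^ 3 + A x + B`. -/
noncomputable def jInvariant {K : Type} [Field K] (A B : K) : K := (curve A B).c₄ ^ 3 / (curve A B).Δ

section

variable {k K : Type} [Field k] [Field K] [Algebra k K]

private theorem cub_inj {a b a' b' : K} (h : GBC.cub a b = GBC.cub a' b') : (a, b) = (a', b') := by
  have h1 := congrArg (fun p => coeff p 1) h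
  have h0 := congrArg (fun p => coeff p 0) h
  simp only [GBC.cub_coeff_one, GBC.cub_coeff_zero] at h1 h0
  rw [h1, h0]

/-- The map of isomorphism classes. -/
private noncomputable def toClass : Quotient (isoCurves K) → Quotient (GBC.isoRel K) :=
  Quotient.map (fun p => GBC.cub p.1 p.2) (by
    rintro ⟨a, b⟩ _ ⟨u, hu, rfl⟩
    refine ⟨u, hu, ?_⟩
    rw [GBC.cub_scaleRoots]
    congr 1 <;> ring)

private theorem toClass_inj : Function.Injective (toClass (K := K)) := by
  intro C C' h
  induction C using Quotient.inductionOn with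
  | h p =>
    induction C' using Quotient.inductionOn with
    | h p' =>
      obtain ⟨u, hu, hu'⟩ : ∃ u : K, u ≠ 0 ∧
          GBC.cub p'.1 p'.2 = (GBC.cub p.1 p.2).scaleRoots (u ^ 2) := Quotient.exact h
      apply Quotient.sound
      refine ⟨u, hu, ?_⟩
      rw [GBC.cub_scaleRoots] at hu'
      have h1 := cub_inj hu'
      change (p'.1, p'.2) = _
      rw [h1]
      congr 1 <;> ring

private theorem model_cub {A B : K} (h : (curve A B).Δ ≠ 0) : GBC.Model 1 (GBC.cub A B) := by
  have hd : 4 * A ^ 3 + 27 * B ^ 2 ≠ 0 := by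
    intro h0
    apply h
    rw [curve_disc, h0, mul_zero]
  refine ⟨GBC.cub_monic, GBC.cub_natDegree, ?_, ?_⟩
  · unfold GBC.cub
    simp [coeff_X_pow]
  · have hder : derivative (GBC.cub A B) = 3 * X ^ 2 + C A := by
      unfold GBC.cub
      simp only [derivative_add, derivative_mul, derivative_C, derivative_X, zero_mul, zero_add,
        mul_one, add_zero, derivative_X_pow]
      norm_num
      exact map_ofNat C 3
    rw [separable_def, hder]
    refine ⟨C ((4 * A ^ 3 + 27 * B ^ 2)⁻¹) * (27 * C B - 18 * C A * X),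
      C ((4 * A ^ 3 + 27 * B ^ 2)⁻¹) * (6 * C A * X ^ 2 - 9 * C B * X + 4 * C A ^ 2), ?_⟩
    have hC : C ((4 * A ^ 3 + 27 * B ^ 2)⁻¹) * (4 * C A ^ 3 + 27 * C B ^ 2) = (1 : K[X]) := by
      have h1 : (4 * C A ^ 3 + 27 * C B ^ 2 : K[X]) = C (4 * A ^ 3 + 27 * B ^ 2) := by
        simp only [map_add, map_mul, map_pow, map_ofNat]
      rw [h1, ← C_mul, inv_mul_cancel₀ hd, C_1]
    rw [← hC]
    unfold GBC.cub
    ring

private theorem height_cub {M : ℕ} {A B : K} (h : HeightAtMost k M A B) :
    GBC.HeightLE k 1 M (GBC.cub A B) := by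
  obtain ⟨D, h1, h2⟩ := h
  refine ⟨D, fun v i hi => ?_, h2⟩
  obtain ⟨hA, hB⟩ := h1 v
  have hi4 : i = 0 ∨ i = 1 ∨ i = 2 ∨ i = 3 := by omega
  rcases hi4 with rfl | rfl | rfl | rfl
  · intro ϖ _
    have e : (GBC.cub A B).coeff (2 * 1 + 1 - 0) = 1 := by
      unfold GBC.cub
      simp [coeff_X_pow]
    rw [e]
    simp only [Nat.cast_zero, mul_zero, zero_mul, zpow_zero, mul_one]
    exact one_mem _
  · intro ϖ _
    have e : (GBC.cub A B).coeff (2 * 1 + 1 - 1) = 0 := by
      unfold GBC.cub
      simp [coeff_X_pow]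
    rw [e, zero_mul]
    exact zero_mem _
  · intro ϖ hϖ
    have e : (GBC.cub A B).coeff (2 * 1 + 1 - 2) = A := GBC.cub_coeff_one A B
    rw [e]
    have h3 := hA ϖ hϖ
    have h4 : 2 * ((2 : ℕ) : ℤ) * D v = 4 * D v := by push_cast; ring
    rw [h4]
    exact h3
  · intro ϖ hϖ
    have e : (GBC.cub A B).coeff (2 * 1 + 1 - 3) = B := GBC.cub_coeff_zero A B
    rw [e]
    have h3 := hB ϖ hϖ
    have h4 : 2 * ((3 : ℕ) : ℤ) * D v = 6 * D v := by push_cast; ring
    rw [h4]
    exact h3

private theorem height_of {M : ℕ} {f : K[X]} (h : GBC.HeightLE k 1 M f) :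
    HeightAtMost k M (f.coeff 1) (f.coeff 0) := by
  obtain ⟨D, h1, h2⟩ := h
  refine ⟨D, fun v => ⟨?_, ?_⟩, h2⟩
  · intro ϖ hϖ
    have h3 := h1 v 2 (by norm_num) ϖ hϖ
    have h4 : 2 * ((2 : ℕ) : ℤ) * D v = 4 * D v := by push_cast; ring
    rw [h4] at h3
    exact h3
  · intro ϖ hϖ
    have h3 := h1 v 3 (by norm_num) ϖ hϖ
    have h4 : 2 * ((3 : ℕ) : ℤ) * D v = 6 * D v := by push_cast; ring
    rw [h4] at h3
    exact h3

private theorem eq_cub_of {f : K[X]} (h : GBC.Model 1 f) : f = GBC.cub (f.coeff 1) (f.coeff 0) := by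
  ext j
  unfold GBC.cub
  by_cases hj : j ≤ 3
  · have h3 : f.coeff 3 = 1 := by
      have := h.monic.coeff_natDegree
      rwa [h.deg] at this
    have h2 : f.coeff 2 = 0 := h.tr
    have : j = 0 ∨ j = 1 ∨ j = 2 ∨ j = 3 := by omega
    rcases this with rfl | rfl | rfl | rfl
    · simp
    · simp [coeff_X_pow]
    · rw [h2]
      simp [coeff_X_pow]
    · rw [h3]
      simp [coeff_X_pow]
  · have h1 : f.coeff j = 0 := coeff_eq_zero_of_natDegree_lt (by rw [h.deg]; omega)
    have h2 := coeff_eq_zero_of_natDegree_lt (p := GBC.cub (f.coeff 1) (f.coeff 0)) (n := j)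
      (by rw [GBC.cub_natDegree]; omega)
    unfold GBC.cub at h2
    rw [h1, h2]

end

/-- **A positive proportion of all elliptic curves over every global function field of
characteristic at least `5` has trivial `2`-Selmer group.** `k` is a finite field with `2, 3 ≠ 0`, `K` any
finitely generated extension of transcendence degree `1`. There are finitely many isomorphism classes of
elliptic curves over `K` of height at most `M`, and for all large `M` at least `c` times all of them
(and at least `c q ^ (10 M)`, `q = #k`) contain a curve `E` whose `j`-invariant is transcendental over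
`k`, with `Sel_2 (E / K) = 0`, `E(K)` finite and equal to `2 E(K)`, rank `0` and `Ш(E / K)[2] = 0`. -/
theorem result (k : Type) [Field k] [Finite k] (h2 : (2 : k) ≠ 0) (h3 : (3 : k) ≠ 0)
    (K : Type) [Field K] [Algebra k K] [Algebra.EssFiniteType k K] (hK : Algebra.trdeg k K = 1) :
    (∀ M : ℕ, (Curves k M (fun _ _ : K => True)).Finite) ∧
    ∃ c : ℝ, 0 < c ∧ ∃ M₀ : ℕ, ∀ M ≥ M₀,
      c * ((Curves k M (fun _ _ : K => True)).ncard : ℝ) ≤
        ((Curves k M (fun A B : K => Transcendental k (jInvariant A B) ∧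
          TrivialSelmer k A B)).ncard : ℝ) ∧
      c * (Nat.card k : ℝ) ^ (10 * M) ≤
        ((Curves k M (fun A B : K => Transcendental k (jInvariant A B) ∧
          TrivialSelmer k A B)).ncard : ℝ) := by
  obtain ⟨hfin, c, hc, M₀, hM⟩ := GBC.main_one hK h2 h3
  have hle : ∀ M : ℕ, toClass '' (Curves k M (fun _ _ : K => True)) ⊆
      GBC.Classes k 1 M (fun _ : K[X] => True) := by
    rintro M _ ⟨_, ⟨A, B, rfl, h4, h5, -⟩, rfl⟩
    exact ⟨GBC.cub A B, rfl, model_cub h4, height_cub h5, trivial⟩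
  have hfin' : ∀ M : ℕ, (Curves k M (fun _ _ : K => True)).Finite := fun M =>
    Set.Finite.of_finite_image ((hfin M _).subset (hle M)) (toClass_inj.injOn)
  have hge : ∀ M : ℕ, GBC.Classes k 1 M (fun f : K[X] =>
      Transcendental k (GBC.jinv (f.coeff 1) (f.coeff 0)) ∧
        TrivialSelmer k (f.coeff 1) (f.coeff 0)) ⊆
      toClass '' (Curves k M (fun A B : K => Transcendental k (jInvariant A B) ∧
          TrivialSelmer k A B)) := by
    rintro M _ ⟨f, rfl, h4, h5, h6, h7⟩
    refine ⟨Quotient.mk _ (f.coeff 1, f.coeff 0), ⟨f.coeff 1, f.coeff 0, rfl, h7.disc,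
      height_of h5, h6, h7⟩, ?_⟩
    change Quotient.mk _ (GBC.cub (f.coeff 1) (f.coeff 0)) = _
    rw [← eq_cub_of h4]
  refine ⟨hfin', c, hc, M₀, fun M hM' => ?_⟩
  have h4 : (Curves k M (fun _ _ : K => True)).ncard ≤
      (GBC.Classes k 1 M (fun _ : K[X] => True)).ncard := by
    rw [← Set.ncard_image_of_injective _ toClass_inj]
    exact Set.ncard_le_ncard (hle M) (hfin M _)
  have hsub : Curves k M (fun A B : K => Transcendental k (jInvariant A B) ∧
      TrivialSelmer k A B) ⊆ Curves k M (fun _ _ : K => True) := by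
    rintro _ ⟨A, B, rfl, h5, h6, -⟩
    exact ⟨A, B, rfl, h5, h6, trivial⟩
  have h5 := (Set.ncard_le_ncard (hge M) (((hfin' M).subset hsub).image _)).trans
    (Set.ncard_image_le ((hfin' M).subset hsub))
  have h4' := Nat.cast_le (α := ℝ).2 h4
  have h5' := Nat.cast_le (α := ℝ).2 h5
  obtain ⟨h6, h7⟩ := hM M hM'
  exact ⟨(mul_le_mul_of_nonneg_left h4' hc.le).trans (h6.trans h5'), h7.trans h5'⟩

end Pool.Agent.Results.MP_48b749_nt.GlobalFunctionFields
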