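import Pool.Agent.Lib.BSDP.I.Main
import Pool.Agent.Lib.BSDP.T.Main
import Pool.Agent.Lib.BSDP.T.Rep
import Pool.Agent.Lib.BSDP.Last

set_option autoImplicit false

open Polynomial Pool.Agent.BSDP

namespace Pool.Agent.Lib.MP_48b749_nt.Old.PositiveProportion

/-- Over every finite field `k` of characteristic at least `5`, a positive proportion of all
elliptic curves `E : y ^ 2 = x ^ 3 + A x + B` over `K = k(t)`, ordered by height, has non-constant
`j`-invariant and trivial `2`-Selmer group; in particular `E(K)` is finite of odd order and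
`Sha(E / K)[2] = 0`. -/
theorem result (k : Type) [Field k] [Finite k] (h2 : (2 : k) ≠ 0) (h3 : (3 : k) ≠ 0) :
    ∃ c : ℝ, 0 < c ∧ ∃ M₀ : ℕ, ∀ M ≥ M₀,
      c * (Nat.card {p : k[X] × k[X] // Height M p.1 p.2} : ℝ) ≤
        (Nat.card {p : k[X] × k[X] // Height M p.1 p.2 ∧
          TrivialSelmer k (algebraMap k[X] (RatFunc k) p.1) (algebraMap k[X] (RatFunc k) p.2)} :
          ℝ) := by
  obtain ⟨a, b, hφ⟩ := exists_cubic (k := k)
  refine density_of h2 h3 hφ (fun A B => TrivialSelmer k (cc A) (cc B)) 1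
    (fun V _ m _ A B hF h => rep_of_not_allDet h2 V hφ hF h) ?_
  intro V hV m hm A B hF hdet
  obtain ⟨W, hW, hsel, hdom⟩ := twist_exists h2 V hV hφ hF hdet
  refine ⟨W, hW, ?_⟩
  have hD0 : (∏ π ∈ W, π) ≠ 0 := (monic_prod hV hW).ne_zero
  have hdisc : 4 * (A * (∏ π ∈ W, π) ^ 2) ^ 3 + 27 * (B * (∏ π ∈ W, π) ^ 3) ^ 2 ≠ 0 := by
    have h : 4 * (A * (∏ π ∈ W, π) ^ 2) ^ 3 + 27 * (B * (∏ π ∈ W, π) ^ 3) ^ 2 =
        (4 * A ^ 3 + 27 * B ^ 2) * (∏ π ∈ W, π) ^ 6 := by ring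
    rw [h]
    exact mul_ne_zero hF.sqf.ne_zero (pow_ne_zero _ hD0)
  have hJ := jNonconst_twist hD0 (jNonconst_fam h2 h3 hφ hm hF)
  refine trivialSelmer_of h2 h3 hdisc hsel hdom fun c hc => hJ c ?_
  rw [curve_disc, curve_c4] at hc
  have h16 : (16 : RatFunc k) ≠ 0 := by
    have h := (map_ne_zero (algebraMap k (RatFunc k))).2 (pow_ne_zero 4 h2)
    rw [map_pow, map_ofNat] at h
    rwa [show (16 : RatFunc k) = 2 ^ 4 by norm_num]
  apply IsFractionRing.injective k[X] (RatFunc k)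
  have hC : algebraMap k[X] (RatFunc k) (C c) = algebraMap k (RatFunc k) c := by
    rw [IsScalarTower.algebraMap_apply k k[X] (RatFunc k)]
    rfl
  refine mul_left_cancel₀ h16 ?_
  simp only [map_mul, map_add, map_pow, map_ofNat, hC, cc] at hc ⊢
  linear_combination -hc

end Pool.Agent.Lib.MP_48b749_nt.Old.PositiveProportion
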