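import Pool.Agent.Lib.BSDR.Fin
import Pool.Agent.Lib.BSDR.NDens

set_option autoImplicit false

open Polynomial Pool.Agent.BSDP

namespace Pool.Agent.Lib.MP_48b749_nt.Old.RankOneProportion

/-- Over every finite field `k` of characteristic at least `5`, a positive proportion of all elliptic
curves `E : y ^ 2 = x ^ 3 + A x + B` over `K = k(t)`, ordered by height, has non-constant `j`-invariant, no
`K`-rational point of order two, rank at most `1` and a `2`-Selmer group of order exactly two whose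
nontrivial element is ramified at closed points of odd total degree; moreover `E` is a quadratic twist of a
curve all of whose bad fibres are of type `I₁`. -/
theorem result (k : Type) [Field k] [Finite k] (h2 : (2 : k) ≠ 0) (h3 : (3 : k) ≠ 0) :
    ∃ c : ℝ, 0 < c ∧ ∃ M₀ : ℕ, ∀ M ≥ M₀,
      c * (Nat.card {p : k[X] × k[X] // Height M p.1 p.2} : ℝ) ≤
        (Nat.card {p : k[X] × k[X] // Height M p.1 p.2 ∧ NodalTwist p.1 p.2 ∧
          SelmerOrderTwo k (algebraMap k[X] (RatFunc k) p.1) (algebraMap k[X] (RatFunc k) p.2)} :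
          ℝ) := by
  obtain ⟨a, b, hφ⟩ := exists_cubic (k := k)
  refine density_one h2 h3 hφ
    (fun A B => NodalTwist A B ∧ SelmerOrderTwo k (cc A) (cc B)) 1
    (fun V _ m _ A B hF h => rep_of_not_allDet h2 V hφ hF h) ?_
  intro V hV m hm A B hF hdet c0 hc0
  obtain ⟨W, hW, c, hc, hcns, hcs, hsel, hR, hcop⟩ := twist_one h2 h3 hV hφ hF hdet hc0
  refine ⟨W, hW, ?_⟩
  have hV' : ∀ π ∈ V, π.Monic ∧ Irreducible π := fun π hπ => ⟨(hV π hπ).1, (hV π hπ).2.1⟩
  have hsqW : Squarefree (∏ π ∈ W, π) := squarefree_prod hV' hW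
  have hc0W : IsCoprime (X - C c0) (∏ π ∈ W, π) := by
    refine IsCoprime.prod_right fun π hπ => ?_
    refine (Irreducible.coprime_iff_not_dvd (irreducible_X_sub_C c0)).2 fun hd => ?_
    have h1 := hV π (hW hπ)
    have h2' : X - C c0 = π := eq_of_monic_of_associated (monic_X_sub_C c0) h1.1
      ((irreducible_X_sub_C c0).associated_of_dvd h1.2.1 hd)
    have h3' := h1.2.2
    rw [← h2', natDegree_X_sub_C] at h3'
    exact absurd h3' (by decide)
  have hsqD : Squarefree ((X - C c0) * ∏ π ∈ W, π) := by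
    rw [squarefree_mul_iff]
    exact ⟨hc0W.isRelPrime, (irreducible_X_sub_C c0).squarefree, hsqW⟩
  have hD0 : ((X - C c0) * ∏ π ∈ W, π) ≠ 0 := hsqD.ne_zero
  have hJ := jNonconst_twist hD0 (jNonconst_fam h2 h3 hφ hm hF)
  have hdom : ∀ u : LK A B, u ≠ 0 → u.norm ≠ 0 := fun u hu =>
    LK_norm_ne_zero hφ hF.degA hF.coeffA hF.degB hF.coeffB u hu
  refine ⟨⟨m, A, B, _, rfl, rfl, hsqD, hF.sqf, hcop, hF.degA, hF.degB, ?_⟩,
    selmerOrderTwo_of h2 hF.sqf hD0 hdom (fun c hc => hJ c ?_) hc hcns hcs hsel hR⟩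
  · obtain ⟨h4, h5⟩ := disc_coeff (k := k) (a := a) (b := b) (m := m) (A := A) (B := B)
      ⟨hF.degA, hF.coeffA⟩ ⟨hF.degB, hF.coeffB⟩
    refine le_antisymm h4 (le_natDegree_of_ne_zero ?_)
    rw [h5]
    exact disc_const_ne_zero h2 h3 hφ
  · rw [curve_disc, curve_c4] at hc
    have h16 : (16 : RatFunc k) ≠ 0 := by
      have h := (map_ne_zero (algebraMap k (RatFunc k))).2 (pow_ne_zero 4 h2)
      rw [map_pow, map_ofNat] at h
      rwa [show (16 : RatFunc k) = 2 ^ 4 by norm_num]
    apply IsFractionRing.injective k[X] (RatFunc k)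
    have hC : algebraMap k[X] (RatFunc k) (C c) = algebraMap k (RatFunc k) c := by
      rw [IsScalarTower.algebraMap_apply k k[X] (RatFunc k)]
      rfl
    refine mul_left_cancel₀ h16 ?_
    simp only [map_mul, map_add, map_pow, map_ofNat, hC, cc] at hc ⊢
    linear_combination -hc

end Pool.Agent.Lib.MP_48b749_nt.Old.RankOneProportion
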